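import Mathlib
import Pool.Agent.QuasiId

/-!
# Finite Jordan rings without a finite basis of quasi-identities

A finite Jordan ring that has a finite basis of quasi-identities has only nilpotent subrings with
zero multiplication. For every prime `p` a commutative ring with `p ^ 4` elements in which all
products of four elements vanish, and which is therefore a Jordan ring, is not associative and has
no finite basis of quasi-identities.
-/

set_option autoImplicit false

namespace Pool.Agent.Results.MP_db5ef1_al.JordanRings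

open Pool.Agent.QuasiId

/-- Quadruples `(a, b, c, d)` over `ZMod p` with the product
`(a, b, c, d) (a', b', c', d') = (0, 0, a a', b c' + c b')`. -/
def Ring4 (p : ℕ) : Type := ZMod p × ZMod p × ZMod p × ZMod p

instance (p : ℕ) : AddCommGroup (Ring4 p) :=
  inferInstanceAs (AddCommGroup (ZMod p × ZMod p × ZMod p × ZMod p))

/-- The product of two quadruples. -/
def Ring4.prod {p : ℕ} (x y : Ring4 p) : Ring4 p :=
  ((0, 0, x.1 * y.1, x.2.1 * y.2.2.1 + x.2.2.1 * y.2.1) : ZMod p × ZMod p × ZMod p × ZMod p)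

instance (p : ℕ) : NonUnitalNonAssocRing (Ring4 p) :=
  { (inferInstance : AddCommGroup (Ring4 p)) with
    mul := fun x y => Ring4.prod x y
    left_distrib := fun x y z => by
      change ((0, 0, x.1 * (y.1 + z.1), x.2.1 * (y.2.2.1 + z.2.2.1) + x.2.2.1 * (y.2.1 + z.2.1)) :
        ZMod p × ZMod p × ZMod p × ZMod p) = (0 + 0, 0 + 0, x.1 * y.1 + x.1 * z.1,
          (x.2.1 * y.2.2.1 + x.2.2.1 * y.2.1) + (x.2.1 * z.2.2.1 + x.2.2.1 * z.2.1))
      refine Prod.ext (by simp) (Prod.ext (by simp) (Prod.ext (by simp; ring) (by simp; ring)))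
    right_distrib := fun x y z => by
      change ((0, 0, (x.1 + y.1) * z.1, (x.2.1 + y.2.1) * z.2.2.1 + (x.2.2.1 + y.2.2.1) * z.2.1) :
        ZMod p × ZMod p × ZMod p × ZMod p) = (0 + 0, 0 + 0, x.1 * z.1 + y.1 * z.1,
          (x.2.1 * z.2.2.1 + x.2.2.1 * z.2.1) + (y.2.1 * z.2.2.1 + y.2.2.1 * z.2.1))
      refine Prod.ext (by simp) (Prod.ext (by simp) (Prod.ext (by simp; ring) (by simp; ring)))
    zero_mul := fun x => by
      change ((0, 0, (0 : ZMod p) * x.1, (0 : ZMod p) * x.2.2.1 + (0 : ZMod p) * x.2.1) :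
        ZMod p × ZMod p × ZMod p × ZMod p) = (0, 0, 0, 0)
      simp
    mul_zero := fun x => by
      change ((0, 0, x.1 * (0 : ZMod p), x.2.1 * (0 : ZMod p) + x.2.2.1 * (0 : ZMod p)) :
        ZMod p × ZMod p × ZMod p × ZMod p) = (0, 0, 0, 0)
      simp }

lemma Ring4.mul_def {p : ℕ} (x y : Ring4 p) : x * y =
    ((0, 0, x.1 * y.1, x.2.1 * y.2.2.1 + x.2.2.1 * y.2.1) :
      ZMod p × ZMod p × ZMod p × ZMod p) := rfl

instance (p : ℕ) [NeZero p] : Finite (Ring4 p) :=
  inferInstanceAs (Finite (ZMod p × ZMod p × ZMod p × ZMod p))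

lemma Ring4.card (p : ℕ) [NeZero p] : Nat.card (Ring4 p) = p ^ 4 := by
  have : Nat.card (ZMod p × ZMod p × ZMod p × ZMod p) = p ^ 4 := by
    rw [Nat.card_eq_fintype_card]
    simp only [Fintype.card_prod, ZMod.card]
    ring
  exact this

/-- the weight filtration: products of `k` elements -/
lemma Ring4.product {p : ℕ} {k : ℕ} {x : Ring4 p} (h : IsProduct k x) :
    1 ≤ k ∧ (2 ≤ k → x.1 = 0 ∧ x.2.1 = 0) ∧ (3 ≤ k → x.2.2.1 = 0) ∧ (4 ≤ k → x.2.2.2 = 0) := by
  induction h with
  | elem a => exact ⟨le_rfl, fun h => by omega, fun h => by omega, fun h => by omega⟩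
  | @mul i j a b _ _ ha hb =>
    obtain ⟨ha1, ha2, ha3, ha4⟩ := ha
    obtain ⟨hb1, hb2, hb3, hb4⟩ := hb
    refine ⟨by omega, fun _ => ⟨rfl, rfl⟩, fun h3 => ?_, fun h4 => ?_⟩
    · change a.1 * b.1 = 0
      by_cases hi : 2 ≤ i
      · rw [(ha2 hi).1, zero_mul]
      · rw [(hb2 (by omega)).1, mul_zero]
    · change a.2.1 * b.2.2.1 + a.2.2.1 * b.2.1 = 0
      by_cases hi : 3 ≤ i
      · rw [(ha2 (by omega)).2, ha3 hi, zero_mul, zero_mul, add_zero]
      · by_cases hi2 : 2 ≤ i
        · rw [(ha2 hi2).2, (hb2 (by omega)).2, zero_mul, mul_zero, add_zero]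
        · rw [(hb2 (by omega)).2, hb3 (by omega), mul_zero, mul_zero, add_zero]

lemma Ring4.props (p : ℕ) [Fact p.Prime] : IsJordanRing (Ring4 p) ∧
    ¬ IsAssociativeRing (Ring4 p) ∧ NilpotentRing (Ring4 p) := by
  have h4 : ∀ a : Ring4 p, IsProduct 4 a → a = 0 := fun a ha => by
    obtain ⟨-, h2, h3, h4⟩ := Ring4.product ha
    exact Prod.ext (h2 (by norm_num)).1 (Prod.ext (h2 (by norm_num)).2
      (Prod.ext (h3 (by norm_num)) (h4 (by norm_num))))
  refine ⟨⟨fun x y => ?_, fun x y => ?_⟩, fun h => ?_, 4, by norm_num, h4⟩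
  · rw [Ring4.mul_def, Ring4.mul_def]
    refine Prod.ext rfl (Prod.ext rfl (Prod.ext ?_ ?_))
    · exact mul_comm _ _
    · change x.2.1 * y.2.2.1 + x.2.2.1 * y.2.1 = y.2.1 * x.2.2.1 + y.2.2.1 * x.2.1
      ring
  · rw [h4 (((x * x) * y) * x) (IsProduct.mul (IsProduct.mul (IsProduct.mul (IsProduct.elem x)
      (IsProduct.elem x)) (IsProduct.elem y)) (IsProduct.elem x)),
      h4 ((x * x) * (y * x)) (IsProduct.mul (IsProduct.mul (IsProduct.elem x)
      (IsProduct.elem x)) (IsProduct.mul (IsProduct.elem y) (IsProduct.elem x)))]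
  · let a : Ring4 p := ((1, 0, 0, 0) : ZMod p × ZMod p × ZMod p × ZMod p)
    let b : Ring4 p := ((0, 1, 0, 0) : ZMod p × ZMod p × ZMod p × ZMod p)
    have h1 : ((a * a) * b).2.2.2 = (a * (a * b)).2.2.2 := by rw [h a a b]
    have h2 : (0 : ZMod p) * 0 + (1 * 1) * 1 = 0 * (1 * 0) + 0 * 0 := h1
    simp at h2

lemma no_basis (A : Type) [NonUnitalNonAssocRing A] (hfin : Finite A) (hbasis : HasFiniteBasis A) :
    ∀ N : NonUnitalSubring A, NilpotentRing N → ∀ x ∈ N, ∀ y ∈ N, x * y = 0 := by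
  intro N hN x hx y hy
  by_contra hxy
  have hinj : Function.Injective (NonUnitalSubringClass.subtype N) := Subtype.val_injective
  refine mainAll A N (NonUnitalSubringClass.subtype N) hinj hN ⟨x, hx⟩ ⟨y, hy⟩ (fun h => hxy ?_)
    hbasis
  exact congrArg Subtype.val h

/-- A finite Jordan ring that has a finite basis of quasi-identities has only nilpotent subrings
with zero multiplication. For every prime `p` there is a Jordan, not associative ring with
`p ^ 4` elements that has no finite basis of quasi-identities. -/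
theorem result :
    (∀ (A : Type) [NonUnitalNonAssocRing A], Finite A → IsJordanRing A → HasFiniteBasis A →
      ∀ N : NonUnitalSubring A, NilpotentRing N → ∀ x ∈ N, ∀ y ∈ N, x * y = 0) ∧
    (∀ p : ℕ, p.Prime → ∃ (A : Type) (_ : NonUnitalNonAssocRing A), Nat.card A = p ^ 4 ∧
      IsJordanRing A ∧ ¬ IsAssociativeRing A ∧ ¬ HasFiniteBasis A) := by
  refine ⟨fun A _ h1 _ h3 => no_basis A h1 h3, fun p hp => ?_⟩
  have : Fact p.Prime := ⟨hp⟩
  refine ⟨Ring4 p, inferInstance, Ring4.card p, (Ring4.props p).1, (Ring4.props p).2.1, ?_⟩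
  let a : Ring4 p := ((1, 0, 0, 0) : ZMod p × ZMod p × ZMod p × ZMod p)
  refine mainAll (Ring4 p) (Ring4 p) (NonUnitalRingHom.id _) (fun _ _ h => h)
    (Ring4.props p).2.2 a a (fun h => ?_)
  have h1 : (a * a).2.2.1 = (0 : Ring4 p).2.2.1 := by rw [h]
  have h2 : (1 : ZMod p) * 1 = 0 := h1
  simp at h2

end Pool.Agent.Results.MP_db5ef1_al.JordanRings
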